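import Pool.Agent.H627.QM.Transport
import Pool.Agent.H295.QM.Genfam

/-!
# Cocountable definable sets in the complex exponential field: families of varieties over hypersurfaces

Quasiminimality predicts that every set of complex numbers which is definable (or
automorphism-invariant) in `(ℂ, +, ·, exp)` with finitely many parameters is countable or cocountable.
Here we treat existential formulas.  Let `V_s ⊆ ℂ^n × (ℂ^*)^n`, `s ∈ ℂ`, be a family of varieties: the
equations of `V_s` are `∑_i f_{k i}(s) a_{k i}(x, y) = 0`, with polynomials `a_{k i}` and entire functions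
`f_{k i}` (for example exponential polynomials, iterated exponentials, …).  Consider the set `D` of
the `s ∈ ℂ` such that there is a `z ∈ ℂ^n` with `(z, e^z) ∈ V_s`.

We prove that `D` is cocountable if for uncountably many `s` the variety `V_s` is irreducible, of dimension `n`, its
projection to `ℂ^n` is dense in a hypersurface, and `V_s` is free in the following
sense: it lies in no set `∑ m_j x_j = c`, and on `V_s` no monomial `y^m`, `m ∈ ℤ^n` not zero, is algebraic
over `ℂ(x)`.  Moreover then `V_s` has these properties for all `s` outside of a countable set, and the points `(z, e^z)`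
are Zariski dense in `V_s`.

The earlier results `HypersurfaceSystems` and `FlatLimitSystems` treat systems `P(x) = 0`,
`e^{x_j} = A_j(s; x, t) / B_j(s; x, t)` with a fixed hypersurface `P = 0` (not depending on `s`) and fibres parametrised by
rational functions; the latter one assumes that `P` has no flat limit.  Here the hypersurface may move with `s`,
the fibres are arbitrary curves, and there is no condition on the hypersurface.

Proof.  For fixed `s` this is the theorem `HypersurfaceFreeFibres` (result of this project for the problem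
`MP_209724_lc`).  The hypotheses on `V_s` are invariant under field automorphisms of `ℂ`, and for `s`, `t` outside of a countable set
there is a field automorphism over a countable field which maps all `f_{k i}(s)` to `f_{k i}(t)`.
-/

set_option autoImplicit false

open MvPolynomial

namespace Pool.Agent.Results.MP_a12702_lc.HypersurfaceFamilies

/-- the variety `V_s ⊆ ℂ^n × (ℂ^*)^n`; `Sum.inl`: the coordinates `x`, `Sum.inr`: the coordinates `y` -/
def member {n N K : ℕ} (f : Fin N → Fin K → ℂ → ℂ)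
    (a : Fin N → Fin K → MvPolynomial (Fin n ⊕ Fin n) ℂ) (s : ℂ) : Set (Fin n ⊕ Fin n → ℂ) :=
  {p | (∀ k, ∑ i, f k i s * eval p (a k i) = 0) ∧ ∀ j : Fin n, p (Sum.inr j) ≠ 0}

/-- `V` is the set of points of `ℂ^n × (ℂ^*)^n` on which the prime ideal `I` vanishes: an
irreducible subvariety. -/
structure IsVariety {n : ℕ} (I : Ideal (MvPolynomial (Fin n ⊕ Fin n) ℂ))
    (V : Set (Fin n ⊕ Fin n → ℂ)) : Prop where
  prime : I.IsPrime
  points : V = {p | (∀ f ∈ I, eval p f = 0) ∧ ∀ j : Fin n, p (Sum.inr j) ≠ 0}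
  nonempty : V.Nonempty

/-- the coordinates with index in `J` are algebraically independent on `V` -/
def Indep {n : ℕ} (V : Set (Fin n ⊕ Fin n → ℂ)) (J : Finset (Fin n ⊕ Fin n)) : Prop :=
  ∀ f : MvPolynomial (Fin n ⊕ Fin n) ℂ, f.vars ⊆ J → (∀ p ∈ V, eval p f = 0) → f = 0

/-- `dim V = d`: the largest number of algebraically independent coordinates is `d` -/
def HasDim {n : ℕ} (V : Set (Fin n ⊕ Fin n → ℂ)) (d : ℕ) : Prop :=
  (∃ J, J.card = d ∧ Indep V J) ∧ ∀ J, J.card = d + 1 → ¬ Indep V J

/-- the closure of the projection of `V` to `ℂ^n` is the hypersurface `P = 0` -/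
def ProjectsOnto {n : ℕ} (V : Set (Fin n ⊕ Fin n → ℂ)) (P : MvPolynomial (Fin n) ℂ) : Prop :=
  Irreducible P ∧ ∀ f : MvPolynomial (Fin n) ℂ,
    (∀ p ∈ V, eval (fun l => p (Sum.inl l)) f = 0) ↔ P ∣ f

/-- additive freeness: `V` lies in no set `∑ m_j x_j = c`, `m ∈ ℤ^n` not zero -/
def AddFree {n : ℕ} (V : Set (Fin n ⊕ Fin n → ℂ)) : Prop :=
  ∀ m : Fin n → ℤ, m ≠ 0 → ∀ c : ℂ, ∃ p ∈ V, (∑ j : Fin n, (m j : ℂ) * p (Sum.inl j)) ≠ c

/-- the monomial `y^m` is algebraic over `ℂ(x)` on `V` -/
def MonomialAlgebraic {n : ℕ} (V : Set (Fin n ⊕ Fin n → ℂ)) (P : MvPolynomial (Fin n) ℂ)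
    (m : Fin n → ℤ) : Prop :=
  ∃ A : Polynomial (MvPolynomial (Fin n) ℂ), (∃ b, ¬ P ∣ A.coeff b) ∧
    ∀ p ∈ V, (A.map (eval fun l => p (Sum.inl l))).eval (∏ l, p (Sum.inr l) ^ m l) = 0

/-- `V` is an irreducible variety of dimension `n` over a hypersurface, additively free and with free
fibres -/
def FreeOverHypersurface {n : ℕ} (V : Set (Fin n ⊕ Fin n → ℂ)) : Prop :=
  ∃ (I : Ideal (MvPolynomial (Fin n ⊕ Fin n) ℂ)) (P : MvPolynomial (Fin n) ℂ),
    IsVariety I V ∧ HasDim V n ∧ ProjectsOnto V P ∧ AddFree V ∧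
    ∀ m : Fin n → ℤ, m ≠ 0 → ¬ MonomialAlgebraic V P m

/-- the exponential point `(z, e^z)` -/
noncomputable def ExpPoint {n : ℕ} (z : Fin n → ℂ) : Fin n ⊕ Fin n → ℂ :=
  Sum.elim z (fun i => Complex.exp (z i))

theorem good_iff {n : ℕ} (V : Set (Fin n ⊕ Fin n → ℂ)) :
    FreeOverHypersurface V ↔ Pool.Agent.H664.QM.GoodV V := by
  constructor
  · rintro ⟨I, P, ⟨h1, h2, h3⟩, hd, hP, ha, hm⟩
    exact ⟨I, P, ⟨h1, h2, h3⟩, hd, hP, ha, hm⟩
  · rintro ⟨I, P, ⟨h1, h2, h3⟩, hd, hP, ha, hm⟩
    exact ⟨I, P, ⟨h1, h2, h3⟩, hd, hP, ha, hm⟩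

theorem dense_of_good {n : ℕ} {V : Set (Fin n ⊕ Fin n → ℂ)} (h : FreeOverHypersurface V) :
    ∀ H : MvPolynomial (Fin n ⊕ Fin n) ℂ, (∃ p ∈ V, eval p H ≠ 0) →
      ∃ z : Fin n → ℂ, ExpPoint z ∈ V ∧ eval (ExpPoint z) H ≠ 0 := by
  obtain ⟨I, P, ⟨h1, h2, h3⟩, hd, hP, ha, hm⟩ := h
  have hadd : Pool.Agent.H664.FH.AddFree P := by
    intro m hm' c hdv
    rw [← hP.2] at hdv
    obtain ⟨p, hp, hne⟩ := ha m hm' c
    apply hne
    have h1 := hdv p hp
    simp only [map_sub, map_sum, map_mul, eval_C, eval_X] at h1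
    exact sub_eq_zero.1 h1
  exact Pool.Agent.H664.FH.dense1 n I V P ⟨h1, h2, h3⟩ hd hP hadd hm

theorem result {n N K : ℕ}
    -- the coefficients of the equations of `V_s` are entire functions of `s`
    (f : Fin N → Fin K → ℂ → ℂ) (hf : ∀ k i, Differentiable ℂ (f k i))
    (a : Fin N → Fin K → MvPolynomial (Fin n ⊕ Fin n) ℂ)
    (hgood : ¬ {s | FreeOverHypersurface (member f a s)}.Countable) :
    -- for all `s` outside of a countable set `V_s` has the same property
    {s | ¬ FreeOverHypersurface (member f a s)}.Countable ∧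
    -- and the points `(z, e^z)` are Zariski dense in `V_s`
    {s | ¬ ∀ H : MvPolynomial (Fin n ⊕ Fin n) ℂ, (∃ p ∈ member f a s, eval p H ≠ 0) →
      ∃ z : Fin n → ℂ, ExpPoint z ∈ member f a s ∧ eval (ExpPoint z) H ≠ 0}.Countable ∧
    -- in particular the definable set `D` is cocountable
    {s | ∃ z : Fin n → ℂ, ExpPoint z ∈ member f a s}ᶜ.Countable := by
  have h1 : {s | ¬ FreeOverHypersurface (member f a s)}.Countable := by
    have h2 : ¬ {s | Pool.Agent.H664.QM.GoodV (Pool.Agent.H664.QM.Vs f a s)}.Countable := by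
      intro h
      apply hgood
      refine h.mono fun s hs => ?_
      exact (good_iff _).1 hs
    refine (Pool.Agent.H295.QM.genfam Pool.Agent.H627.QM.transport n N K f a hf h2).mono ?_
    intro s hs hs'
    exact hs ((good_iff _).2 hs')
  refine ⟨h1, ?_, ?_⟩
  · refine h1.mono fun s hs => ?_
    show ¬ FreeOverHypersurface (member f a s)
    exact fun hg => hs (dense_of_good hg)
  · refine h1.mono fun s hs => ?_
    show ¬ FreeOverHypersurface (member f a s)
    intro hg
    apply hs
    obtain ⟨I, P, h, -⟩ := id hg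
    obtain ⟨p, hp⟩ := h.nonempty
    obtain ⟨z, hz, -⟩ := dense_of_good hg 1 ⟨p, hp, by simp⟩
    exact ⟨z, hz⟩

end Pool.Agent.Results.MP_a12702_lc.HypersurfaceFamilies
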