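import Pool.Agent.H664.QK.AllQ

/-!
# Quasiminimality for all systems of exponential polynomial equations in three unknowns

Let `W` be any set of polynomials in `s, z₁, z₂, z₃, e^s, e^{z₁}, e^{z₂}, e^{z₃}` with complex coefficients.
We prove that the set of all `s ∈ ℂ` for which the system `f = 0` (`f ∈ W`) has a solution
`(z₁, z₂, z₃) ∈ ℂ³` is countable or cocountable.  This is what the quasiminimality of the complex
exponential field predicts for all sets which are defined by a positive existential formula with at most three
quantified variables.

Proof.  Let `K` be a countable subfield of `ℂ` which contains the coefficients and is closed under the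
coordinates of nondegenerate solutions of square systems ('Khovanskii systems').  By Ax's theorem `K` is
algebraically closed in `ℂ`, closed under `exp` and logarithms, and
`tr.deg_K K(t, e^t) ≥ r + 1` if `t_1, …, t_r` are linearly independent over `ℚ` modulo `K` (Bays, Kirby, Wilkie; here
this is Schanuel's conjecture over `K`).  Let `s ∉ K` be in the set and `z` a solution, and let `s' ∉ K`. Starting
with the field isomorphism `K(s, e^s) → K(s', e^{s'})` one finds step by step a solution `z'` for `s'`: as long as a
nontrivial combination `a = m · z`, or its exponential, is algebraic over the field `F` reached so far one extends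
the isomorphism to `F(a, e^a)`.  Otherwise the locus of `(z, e^z)` over `F` is a free and rotund variety, which by the
isomorphism becomes a free and rotund variety over `ℂ`, and one needs that it has an exponential point.
This is exponential-algebraic closedness for `n ≤ 3`, in all dimensions `d ≥ n`: for `d = n` it is
known for `n = 1` and `n = 2` (Mantova and Masser) and a result of this run for `n = 3` (`DimensionThree` of
`MP_209724_lc`); and it follows for `d > n` by generic hyperplane sections.
-/

set_option autoImplicit false

open MvPolynomial

namespace Pool.Agent.Results.MP_a12702_lc.ThreeUnknowns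

/-- the point `(s, z₁, z₂, z₃, e^s, e^{z₁}, e^{z₂}, e^{z₃})` -/
noncomputable def point (s : ℂ) (z : Fin 3 → ℂ) : Fin 4 ⊕ Fin 4 → ℂ :=
  Sum.elim (Fin.cons s z : Fin 4 → ℂ) (fun i => Complex.exp ((Fin.cons s z : Fin 4 → ℂ) i))

theorem result (W : Set (MvPolynomial (Fin 4 ⊕ Fin 4) ℂ)) :
    {s : ℂ | ∃ z : Fin 3 → ℂ, ∀ f ∈ W, eval (point s z) f = 0}.Countable ∨
    {s : ℂ | ∃ z : Fin 3 → ℂ, ∀ f ∈ W, eval (point s z) f = 0}ᶜ.Countable :=
  Pool.Agent.H664.QK.three W

end Pool.Agent.Results.MP_a12702_lc.ThreeUnknowns
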